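import Pool.Agent.TH198.AT.Stmts

/-!
# The Gaussian Poincaré inequality for `tanh`

`(g(y) - g(y'))² ≤ (y - y') (H(y) - H(y'))` with `H' = g'²`; integrate over independent `y`, `y'`
and use Stein's lemma.
-/

set_option autoImplicit false

open MeasureTheory ProbabilityTheory Set

namespace Pool.TH198.AT

namespace POIN

theorem sech_sq (x : ℝ) : sech x ^ 2 = 1 - Real.tanh x ^ 2 := by
  have hc := Real.cosh_pos x
  have h := Real.cosh_sq x
  rw [sech, Real.tanh_eq_sinh_div_cosh, inv_pow, div_pow]
  field_simp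
  linarith

theorem hasDerivAt_tanh (x : ℝ) : HasDerivAt Real.tanh (sech x ^ 2) x := by
  have hc := Real.cosh_pos x
  have h1 := (Real.hasDerivAt_sinh x).div (Real.hasDerivAt_cosh x) hc.ne'
  have h2 : Real.tanh = fun y => Real.sinh y / Real.cosh y :=
    funext fun y => Real.tanh_eq_sinh_div_cosh y
  rw [h2]
  refine h1.congr_deriv ?_
  have h := Real.cosh_sq x
  rw [sech, inv_pow]
  field_simp
  linarith

/-- the antiderivative of `sech⁴` -/
noncomputable def Hh (x : ℝ) : ℝ := Real.tanh x - Real.tanh x ^ 3 / 3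

theorem hasDerivAt_Hh (x : ℝ) : HasDerivAt Hh (sech x ^ 4) x := by
  have h1 := hasDerivAt_tanh x
  have h2 := h1.sub ((h1.pow 3).div_const 3)
  refine h2.congr_deriv ?_
  have h := sech_sq x
  have h4 : sech x ^ 4 = sech x ^ 2 * sech x ^ 2 := by ring
  rw [h4, h]
  push_cast
  ring

theorem pt_le {a b : ℝ} (hab : b ≤ a) :
    (Real.tanh a - Real.tanh b) ^ 2 ≤ (a - b) * (Hh a - Hh b) := by
  have hmt : Monotone Real.tanh :=
    monotone_of_deriv_nonneg (fun y => (hasDerivAt_tanh y).differentiableAt)
      (fun y => by rw [(hasDerivAt_tanh y).deriv]; positivity)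
  have hmH : Monotone Hh :=
    monotone_of_deriv_nonneg (fun y => (hasDerivAt_Hh y).differentiableAt)
      (fun y => by rw [(hasDerivAt_Hh y).deriv]; positivity)
  have hT : 0 ≤ Real.tanh a - Real.tanh b := sub_nonneg.2 (hmt hab)
  have hH : 0 ≤ Hh a - Hh b := sub_nonneg.2 (hmH hab)
  have hab' : 0 ≤ a - b := sub_nonneg.2 hab
  rcases hT.eq_or_lt with h0 | h0
  · rw [← h0]
    have := mul_nonneg hab' hH
    simpa using this
  · have hab2 : 0 < a - b := by
      rcases hab'.eq_or_lt with h1 | h1
      · have : a = b := by linarith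
        rw [this, sub_self] at h0
        exact absurd h0 (lt_irrefl _)
      · exact h1
    obtain ⟨l, hl⟩ : ∃ l : ℝ, l = (Real.tanh a - Real.tanh b) / (a - b) := ⟨_, rfl⟩
    have hl0 : 0 < l := by rw [hl]; exact div_pos h0 hab2
    have hd : ∀ y, HasDerivAt (fun y => l * y + Hh y / l - 2 * Real.tanh y)
        (l * 1 + sech y ^ 4 / l - 2 * sech y ^ 2) y := fun y =>
      (((hasDerivAt_id y).const_mul l).add ((hasDerivAt_Hh y).div_const l)).sub
        ((hasDerivAt_tanh y).const_mul 2)
    have hmD : Monotone (fun y => l * y + Hh y / l - 2 * Real.tanh y) := by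
      refine monotone_of_deriv_nonneg (fun y => (hd y).differentiableAt) (fun y => ?_)
      rw [(hd y).deriv]
      have e : l * 1 + sech y ^ 4 / l - 2 * sech y ^ 2 = (l - sech y ^ 2) ^ 2 / l := by
        field_simp
        ring
      rw [e]
      positivity
    have h1 := hmD hab
    simp only at h1
    have h2 : l * (a - b) = Real.tanh a - Real.tanh b := by
      rw [hl]
      field_simp
    have h3 : Real.tanh a - Real.tanh b ≤ (Hh a - Hh b) / l := by
      have e : (Hh a - Hh b) / l = Hh a / l - Hh b / l := by ring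
      rw [e]
      nlinarith
    rw [le_div_iff₀ hl0] at h3
    have h4 : (Real.tanh a - Real.tanh b) * l * (a - b) ≤ (Hh a - Hh b) * (a - b) :=
      mul_le_mul_of_nonneg_right h3 hab'
    have h5 : (Real.tanh a - Real.tanh b) * l * (a - b) = (Real.tanh a - Real.tanh b) ^ 2 := by
      rw [mul_assoc, h2]
      ring
    rw [h5] at h4
    linarith [mul_comm (Hh a - Hh b) (a - b)]

theorem pt (a b : ℝ) : (Real.tanh a - Real.tanh b) ^ 2 ≤ (a - b) * (Hh a - Hh b) := by
  rcases le_total b a with h | h
  · exact pt_le h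
  · have := pt_le h
    have e1 : (Real.tanh a - Real.tanh b) ^ 2 = (Real.tanh b - Real.tanh a) ^ 2 := by ring
    have e2 : (a - b) * (Hh a - Hh b) = (b - a) * (Hh b - Hh a) := by ring
    rw [e1, e2]
    exact this

theorem abs_tanh_le (x : ℝ) : |Real.tanh x| ≤ 1 := (Real.abs_tanh_lt_one x).le

theorem abs_Hh_le (x : ℝ) : |Hh x| ≤ 2 := by
  have h1 := abs_le.1 (abs_tanh_le x)
  have h2 : |Real.tanh x ^ 3| ≤ 1 := by
    rw [abs_pow]
    exact pow_le_one₀ (abs_nonneg _) (abs_tanh_le x)
  have h3 := abs_le.1 h2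
  rw [Hh, abs_le]
  constructor <;> linarith [h1.1, h1.2, h3.1, h3.2]

theorem abs_sech_le (x : ℝ) : |sech x| ≤ 1 := by
  rw [sech, abs_of_nonneg (by have := Real.cosh_pos x; positivity)]
  exact inv_le_one_of_one_le₀ (Real.one_le_cosh x)

theorem continuous_sech : Continuous sech := by
  unfold sech
  exact Real.continuous_cosh.inv₀ fun x => (Real.cosh_pos x).ne'

theorem continuous_tanh : Continuous Real.tanh :=
  continuous_iff_continuousAt.2 fun x => (hasDerivAt_tanh x).continuousAt

theorem continuous_Hh : Continuous Hh :=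
  continuous_iff_continuousAt.2 fun x => (hasDerivAt_Hh x).continuousAt

theorem int_bdd {F : ℝ → ℝ} (hF : Continuous F) {C : ℝ} (hC : ∀ y, |F y| ≤ C) :
    Integrable F (gaussianReal 0 1) :=
  Integrable.of_bound hF.aestronglyMeasurable C (Filter.Eventually.of_forall hC)

theorem int_id : Integrable (fun y : ℝ => y) (gaussianReal 0 1) :=
  (memLp_id_gaussianReal 1).integrable le_rfl

theorem int_id_mul {F : ℝ → ℝ} (hF : Continuous F) {C : ℝ} (hC : ∀ y, |F y| ≤ C) :
    Integrable (fun y : ℝ => y * F y) (gaussianReal 0 1) := by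
  refine Integrable.mono' (int_id.abs.const_mul C)
    (continuous_id.mul hF).aestronglyMeasurable (Filter.Eventually.of_forall fun y => ?_)
  rw [Real.norm_eq_abs, abs_mul, mul_comm]
  exact mul_le_mul_of_nonneg_right (hC y) (abs_nonneg y)

/-- the Poincaré inequality from the pointwise inequality -/
theorem var_le {g H : ℝ → ℝ} {C : ℝ} (hg : Continuous g) (hH : Continuous H)
    (hgC : ∀ y, |g y| ≤ C) (hHC : ∀ y, |H y| ≤ C)
    (hp : ∀ y y', (g y - g y') ^ 2 ≤ (y - y') * (H y - H y')) :
    E1 (fun y => g y ^ 2) - (E1 g) ^ 2 ≤ E1 (fun y => y * H y) := by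
  have hC0 : 0 ≤ C := (abs_nonneg _).trans (hgC 0)
  have hg2 : Integrable (fun y => g y ^ 2) (gaussianReal 0 1) :=
    int_bdd (C := C ^ 2) (hg.pow 2) fun y => by
      rw [abs_pow]
      exact pow_le_pow_left₀ (abs_nonneg _) (hgC y) 2
  have hgi := int_bdd hg hgC
  have hHi := int_bdd hH hHC
  have hyH := int_id_mul hH hHC
  have hid : ∫ y : ℝ, y ∂(gaussianReal 0 1) = 0 := integral_id_gaussianReal
  unfold E1
  obtain ⟨A, hA⟩ : ∃ A, A = ∫ y, g y ^ 2 ∂(gaussianReal 0 1) := ⟨_, rfl⟩
  obtain ⟨m, hm⟩ : ∃ m, m = ∫ y, g y ∂(gaussianReal 0 1) := ⟨_, rfl⟩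
  obtain ⟨B, hB⟩ : ∃ B, B = ∫ y, y * H y ∂(gaussianReal 0 1) := ⟨_, rfl⟩
  obtain ⟨D, hD⟩ : ∃ D, D = ∫ y, H y ∂(gaussianReal 0 1) := ⟨_, rfl⟩
  rw [← hA, ← hm, ← hB]
  have h1 : ∀ t : ℝ, A - 2 * m * g t + g t ^ 2 ≤ B - t * D + t * H t := by
    intro t
    have l1 : ∫ y, (g y - g t) ^ 2 ∂(gaussianReal 0 1) = A - 2 * m * g t + g t ^ 2 := by
      have e : (fun y => (g y - g t) ^ 2) = fun y => (g y ^ 2 - (2 * g t) * g y) + g t ^ 2 := by
        funext y
        ring
      have i1 : Integrable (fun y => (2 * g t) * g y) (gaussianReal 0 1) := hgi.const_mul _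
      have i0 : Integrable (fun y => g y ^ 2 - (2 * g t) * g y) (gaussianReal 0 1) := hg2.sub i1
      rw [e, integral_add i0 (integrable_const _), integral_sub hg2 i1,
        integral_const_mul, integral_const, ← hA, ← hm]
      simp
      ring
    have l2 : ∫ y, (y - t) * (H y - H t) ∂(gaussianReal 0 1) = B - t * D + t * H t := by
      have e : (fun y => (y - t) * (H y - H t)) =
          fun y => ((y * H y - H t * y) - t * H y) + t * H t := by
        funext y
        ring
      have i1 : Integrable (fun y : ℝ => H t * y) (gaussianReal 0 1) := int_id.const_mul _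
      have i2 : Integrable (fun y => t * H y) (gaussianReal 0 1) := hHi.const_mul _
      have i3 : Integrable (fun y : ℝ => y * H y - H t * y) (gaussianReal 0 1) := hyH.sub i1
      have i4 : Integrable (fun y : ℝ => y * H y - H t * y - t * H y) (gaussianReal 0 1) :=
        i3.sub i2
      rw [e, integral_add i4 (integrable_const _), integral_sub i3 i2,
        integral_sub hyH i1, integral_const_mul, integral_const_mul, integral_const, ← hB, ← hD,
        hid]
      simp
    rw [← l1, ← l2]
    refine integral_mono ?_ ?_ (fun y => hp y t)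
    · refine int_bdd (C := (C + C) ^ 2) ((hg.sub continuous_const).pow 2) fun y => ?_
      rw [abs_pow]
      refine pow_le_pow_left₀ (abs_nonneg _) ?_ 2
      exact (abs_sub _ _).trans (add_le_add (hgC y) (hgC t))
    · have i1 : Integrable (fun y : ℝ => H t * y) (gaussianReal 0 1) := int_id.const_mul _
      have i2 : Integrable (fun y => t * H y) (gaussianReal 0 1) := hHi.const_mul _
      have := ((hyH.sub i1).sub i2).add (integrable_const (t * H t))
      refine this.congr (Filter.Eventually.of_forall fun y => ?_)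
      simp only [Pi.add_apply, Pi.sub_apply]
      ring
  have l3 : ∫ t, (A - 2 * m * g t + g t ^ 2) ∂(gaussianReal 0 1) = A - 2 * m * m + A := by
    have i1 : Integrable (fun t => 2 * m * g t) (gaussianReal 0 1) := hgi.const_mul _
    have i0 : Integrable (fun t => A - 2 * m * g t) (gaussianReal 0 1) :=
      (integrable_const A).sub i1
    rw [integral_add i0 hg2, integral_sub (integrable_const A) i1,
      integral_const_mul, integral_const, ← hA, ← hm]
    simp
  have l4 : ∫ t, (B - t * D + t * H t) ∂(gaussianReal 0 1) = B + B := by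
    have i1 : Integrable (fun t : ℝ => t * D) (gaussianReal 0 1) := int_id.mul_const _
    have i0 : Integrable (fun t : ℝ => B - t * D) (gaussianReal 0 1) :=
      (integrable_const B).sub i1
    rw [integral_add i0 hyH, integral_sub (integrable_const B) i1,
      integral_mul_const, integral_const, ← hB, hid]
    simp
  have h2 : A - 2 * m * m + A ≤ B + B := by
    rw [← l3, ← l4]
    refine integral_mono ?_ ?_ h1
    · exact ((integrable_const A).sub (hgi.const_mul (2 * m))).add hg2
    · exact ((integrable_const B).sub (int_id.mul_const D)).add hyH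
  linarith [sq m]

end POIN

open POIN

theorem t_POIN (hS : St_STEIN) : St_POIN := by
  intro x σ hσ
  obtain ⟨H, hH⟩ : ∃ H : ℝ → ℝ, H = fun y => σ * Hh (x + σ * y) := ⟨_, rfl⟩
  have hlin : Continuous fun y : ℝ => x + σ * y := by fun_prop
  have hHc : Continuous H := by
    rw [hH]
    exact continuous_const.mul (continuous_Hh.comp hlin)
  have hgc : Continuous fun y : ℝ => Real.tanh (x + σ * y) := continuous_tanh.comp hlin
  have hHb : ∀ y, |H y| ≤ σ * 2 := by
    intro y
    rw [hH]
    simp only
    rw [abs_mul, abs_of_nonneg hσ]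
    exact mul_le_mul_of_nonneg_left (abs_Hh_le _) hσ
  have h1 := var_le (g := fun y => Real.tanh (x + σ * y)) (H := H) (C := 1 + σ * 2) hgc hHc
    (fun y => (abs_tanh_le _).trans (by linarith)) (fun y => (hHb y).trans (by linarith))
    (fun y y' => by
      have h := pt (x + σ * y) (x + σ * y')
      have e : (x + σ * y - (x + σ * y')) * (Hh (x + σ * y) - Hh (x + σ * y')) =
          (y - y') * (H y - H y') := by
        rw [hH]
        ring
      rw [e] at h
      exact h)
  have h2 : E1 (fun y => y * H y) = E1 (fun y => σ ^ 2 * sech (x + σ * y) ^ 4) := by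
    refine hS H (fun y => σ ^ 2 * sech (x + σ * y) ^ 4) (σ * 2 + σ ^ 2) 0 ?_ ?_ ?_ ?_
    · intro y
      have h := (hasDerivAt_Hh (x + σ * y)).comp y
        (((hasDerivAt_id y).const_mul σ).const_add x)
      rw [hH]
      refine (h.const_mul σ).congr_deriv ?_
      ring
    · exact continuous_const.mul ((continuous_sech.comp hlin).pow 4)
    · intro y
      rw [zero_mul, Real.exp_zero, mul_one]
      exact (hHb y).trans (by nlinarith)
    · intro y
      rw [zero_mul, Real.exp_zero, mul_one, abs_mul, abs_pow, abs_pow]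
      have h3 : |sech (x + σ * y)| ^ 4 ≤ 1 := pow_le_one₀ (abs_nonneg _) (abs_sech_le _)
      rw [abs_of_nonneg hσ]
      have h4 : σ ^ 2 * |sech (x + σ * y)| ^ 4 ≤ σ ^ 2 * 1 :=
        mul_le_mul_of_nonneg_left h3 (sq_nonneg σ)
      linarith
  have h3 : E1 (fun y => σ ^ 2 * sech (x + σ * y) ^ 4) =
      σ ^ 2 * E1 (fun y => sech (x + σ * y) ^ 4) := by
    unfold E1
    exact integral_const_mul _ _
  rw [h2, h3] at h1
  exact h1

end Pool.TH198.AT
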